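import Pool.Agent.Helper81.OP.Defs

/-!
# Module DEC of op_mods (MP_ec87e6_co): components and attachments
-/

set_option autoImplicit false

open SimpleGraph
open scoped Classical

namespace Pool.Agent.Helper81.OP

theorem dec_mem_un {V : Type} (Cs : List (Finset V)) (v : V) :
    v ∈ un Cs ↔ ∃ C ∈ Cs, v ∈ C := by
  induction Cs with
  | nil => simp [un]
  | cons A Cs ih =>
    have h : un (A :: Cs) = A ∪ un Cs := rfl
    rw [h, Finset.mem_union, ih]
    simp

/-- the vertex set of a component of `G` restricted to `U` -/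
noncomputable def dec_cc {V : Type} [Fintype V] (G : SimpleGraph V) (U : Finset V)
    (c : (G.induce (U : Set V)).ConnectedComponent) : Finset V :=
  Finset.univ.filter fun v => ∃ h : v ∈ (U : Set V),
    (G.induce (U : Set V)).connectedComponentMk ⟨v, h⟩ = c

theorem dec_mem_cc {V : Type} [Fintype V] (G : SimpleGraph V) (U : Finset V)
    (c : (G.induce (U : Set V)).ConnectedComponent) (v : V) :
    v ∈ dec_cc G U c ↔ ∃ h : v ∈ (U : Set V),
      (G.induce (U : Set V)).connectedComponentMk ⟨v, h⟩ = c := by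
  simp [dec_cc]

theorem dec_reach {V : Type} [Fintype V] (G : SimpleGraph V) (U : Finset V)
    (c : (G.induce (U : Set V)).ConnectedComponent) (a b : (U : Set V))
    (p : (G.induce (U : Set V)).Walk a b) (ha : (a : V) ∈ dec_cc G U c)
    (hb : (b : V) ∈ dec_cc G U c) :
    (G.induce (dec_cc G U c : Set V)).Reachable ⟨a, ha⟩ ⟨b, hb⟩ := by
  induction p with
  | nil => exact Reachable.refl _
  | @cons u v w h p ih =>
    have hv : (v : V) ∈ dec_cc G U c := by
      rw [dec_mem_cc] at ha ⊢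
      obtain ⟨h1, h2⟩ := ha
      refine ⟨v.2, ?_⟩
      rw [← h2]
      exact ConnectedComponent.sound h.reachable.symm
    have h3 : (G.induce (dec_cc G U c : Set V)).Adj ⟨u, ha⟩ ⟨v, hv⟩ := h
    exact h3.reachable.trans (ih hv hb)

theorem st_DEC : ST_DEC := by
  intro V _ G Q U hQ hUQ hU
  let H := G.induce (U : Set V)
  refine ⟨(Finset.univ : Finset H.ConnectedComponent).toList.map (dec_cc G U), ?_, ?_, ?_⟩
  · ext v
    rw [dec_mem_un]
    constructor
    · rintro ⟨C, hC, hv⟩
      obtain ⟨c, -, rfl⟩ := List.mem_map.1 hC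
      rw [dec_mem_cc] at hv
      exact hv.1
    · intro hv
      refine ⟨dec_cc G U (H.connectedComponentMk ⟨v, hv⟩), ?_, ?_⟩
      · exact List.mem_map.2 ⟨_, by simp, rfl⟩
      · rw [dec_mem_cc]
        exact ⟨hv, rfl⟩
  · rw [List.pairwise_map]
    have h1 := (Finset.nodup_toList (Finset.univ : Finset H.ConnectedComponent))
    refine List.Pairwise.imp ?_ h1
    intro c c' hcc
    rw [Finset.disjoint_left]
    intro v hv hv'
    rw [dec_mem_cc] at hv hv'
    obtain ⟨h2, h3⟩ := hv
    obtain ⟨h4, h5⟩ := hv'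
    exact hcc (h3.symm.trans h5)
  · intro C hC
    obtain ⟨c, -, rfl⟩ := List.mem_map.1 hC
    refine ⟨Q.filter fun s => ∃ x ∈ dec_cc G U c, G.Adj s x, Finset.filter_subset _ _, ?_⟩
    refine ⟨?_, ?_, ?_, ?_, ?_⟩
    · obtain ⟨x0, hx0⟩ := c.exists_rep
      have hx1 : (x0 : V) ∈ dec_cc G U c := by
        rw [dec_mem_cc]
        exact ⟨x0.2, hx0⟩
      haveI : Nonempty (dec_cc G U c : Set V) := ⟨⟨x0, hx1⟩⟩
      refine Connected.mk ?_
      rintro ⟨a, ha⟩ ⟨b, hb⟩
      have ha' := ha
      have hb' := hb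
      rw [Finset.mem_coe, dec_mem_cc] at ha' hb'
      obtain ⟨h1, h2⟩ := ha'
      obtain ⟨h3, h4⟩ := hb'
      have h5 : H.Reachable ⟨a, h1⟩ ⟨b, h3⟩ := ConnectedComponent.exact (h2.trans h4.symm)
      obtain ⟨p⟩ := h5
      exact dec_reach G U c ⟨a, h1⟩ ⟨b, h3⟩ p ha hb
    · rw [Finset.disjoint_left]
      intro v hv hv'
      rw [dec_mem_cc] at hv
      exact (Finset.disjoint_left.1 hUQ) hv.1 (Finset.mem_filter.1 hv').1
    · intro s hs t ht hst
      exact hQ s (Finset.mem_filter.1 hs).1 t (Finset.mem_filter.1 ht).1 hst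
    · intro x hx y hxy
      have hx' := hx
      rw [dec_mem_cc] at hx'
      obtain ⟨h1, h2⟩ := hx'
      rcases hU x h1 y hxy with hy | hy
      · left
        rw [dec_mem_cc]
        refine ⟨hy, ?_⟩
        rw [← h2]
        have h3 : H.Adj ⟨x, h1⟩ ⟨y, hy⟩ := hxy
        exact ConnectedComponent.sound h3.reachable.symm
      · right
        exact Finset.mem_filter.2 ⟨hy, x, hx, hxy.symm⟩
    · intro s hs
      obtain ⟨x, hx, hsx⟩ := (Finset.mem_filter.1 hs).2
      exact ⟨x, hx, hsx⟩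

end Pool.Agent.Helper81.OP
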